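import Mathlib
import Pool.Agent.TH278.DX.Defs2

/-!
# A lower bound for coefficients of unitary representations with small fourth moment
-/

set_option autoImplicit false
set_option maxHeartbeats 4000000
set_option synthInstance.maxHeartbeats 400000

namespace Pool.Agent.TH48.J4951

/-! ### a bounded operator and its adjoint -/

section op

variable {V : Type} [NormedAddCommGroup V] [InnerProductSpace ℂ V]

/-- a linear map and its adjoint, with a bound for the norms -/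
structure Adj (T T' : V →L[ℂ] V) (R : ℝ) : Prop where
  adj : ∀ x y, inner ℂ (T' x) y = inner ℂ x (T y)
  bd : ∀ x, ‖T x‖ ≤ R * ‖x‖
  bd' : ∀ x, ‖T' x‖ ≤ R * ‖x‖
  nn : 0 ≤ R

variable {T T' : V →L[ℂ] V} {R : ℝ}

theorem Adj.adj' (h : Adj T T' R) (x y : V) : inner ℂ (T x) y = inner ℂ x (T' y) := by
  rw [← inner_conj_symm, ← h.adj, inner_conj_symm]

theorem Adj.re (h : Adj T T' R) (x : V) : RCLike.re (inner ℂ x (T' (T x))) = ‖T x‖ ^ 2 := by
  rw [← h.adj', inner_self_eq_norm_sq]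

theorem Adj.re2 (h : Adj T T' R) (x : V) :
    RCLike.re (inner ℂ (T x) (T (T' (T x)))) = ‖T' (T x)‖ ^ 2 := by
  rw [← h.adj, inner_self_eq_norm_sq]

theorem Adj.contr (h : Adj T T' R) (x : V) :
    ‖((R ^ 2 : ℝ) : ℂ) • x - T' (T x)‖ ≤ R ^ 2 * ‖x‖ := by
  have hR := h.nn
  refine le_of_sq_le_sq ?_ (by positivity)
  rw [norm_sub_sq (𝕜 := ℂ), inner_smul_left, norm_smul, Complex.norm_real, Real.norm_eq_abs,
    abs_of_nonneg (by positivity : 0 ≤ R ^ 2), Complex.conj_ofReal]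
  have e : RCLike.re (((R ^ 2 : ℝ) : ℂ) * inner ℂ x (T' (T x))) = R ^ 2 * ‖T x‖ ^ 2 := by
    rw [← h.re x]
    exact RCLike.re_ofReal_mul (K := ℂ) (R ^ 2) _
  rw [e]
  have h1 : ‖T' (T x)‖ ^ 2 ≤ (R * ‖T x‖) ^ 2 :=
    pow_le_pow_left₀ (norm_nonneg _) (h.bd' (T x)) 2
  have h2 : 0 ≤ R ^ 2 * ‖T x‖ ^ 2 := by positivity
  nlinarith

/-- the bound `r / (1 + s r ^ 2) ≤ 1 / (2 √s)` -/
theorem Adj.upper (h : Adj T T' R) {s : ℝ} (hs : 0 < s) {z ξ : V}
    (hz : z + (s : ℂ) • T' (T z) = ξ) : ‖T z‖ ≤ ‖ξ‖ / (2 * Real.sqrt s) := by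
  have h1 : ‖ξ‖ ^ 2 = ‖z‖ ^ 2 + 2 * (s * ‖T z‖ ^ 2) + s ^ 2 * ‖T' (T z)‖ ^ 2 := by
    rw [← hz, norm_add_sq (𝕜 := ℂ), inner_smul_right, norm_smul, Complex.norm_real,
      Real.norm_eq_abs, abs_of_pos hs, mul_pow]
    have e : RCLike.re ((s : ℂ) * inner ℂ z (T' (T z))) = s * ‖T z‖ ^ 2 := by
      rw [← h.re z]
      exact RCLike.re_ofReal_mul (K := ℂ) s _
    rw [e]
  have h2 : ‖T z‖ ^ 2 ≤ ‖z‖ * ‖T' (T z)‖ := by
    rw [← h.re z]
    exact re_inner_le_norm _ _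
  have h3 : (2 * Real.sqrt s * ‖T z‖) ^ 2 ≤ ‖ξ‖ ^ 2 := by
    rw [mul_pow, mul_pow, Real.sq_sqrt hs.le, h1]
    nlinarith [sq_nonneg (‖z‖ - s * ‖T' (T z)‖)]
  have h4 : 2 * Real.sqrt s * ‖T z‖ ≤ ‖ξ‖ := le_of_sq_le_sq h3 (norm_nonneg _)
  have h5 : 0 < 2 * Real.sqrt s := by positivity
  rw [le_div_iff₀ h5]
  linarith

/-- the bound `u - s u ^ 2 ≤ u / (1 + s u)` -/
theorem Adj.lower (h : Adj T T' R) {s : ℝ} (hs : 0 < s) {w δ : V}
    (hw : w + (s : ℂ) • T' (T w) = δ) :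
    ‖T δ‖ ^ 2 - s * ‖T' (T δ)‖ ^ 2 ≤ RCLike.re (inner ℂ (T δ) (T w)) := by
  have a1 : T δ = T w + (s : ℂ) • T (T' (T w)) := by rw [← hw, map_add, map_smul]
  have a2 : T' (T δ) = T' (T w) + (s : ℂ) • T' (T (T' (T w))) := by
    rw [a1, map_add, map_smul]
  have h1 : RCLike.re (inner ℂ (T δ) (T w)) = ‖T w‖ ^ 2 + s * ‖T' (T w)‖ ^ 2 := by
    rw [a1, inner_add_left, inner_smul_left, Complex.conj_ofReal, map_add, inner_self_eq_norm_sq]
    congr 1
    have e : inner ℂ (T (T' (T w))) (T w) = inner ℂ (T' (T w)) (T' (T w)) := h.adj' _ _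
    rw [e, ← inner_self_eq_norm_sq (𝕜 := ℂ) (T' (T w))]
    exact RCLike.re_ofReal_mul (K := ℂ) s _
  have h2 : ‖T δ‖ ^ 2 = ‖T w‖ ^ 2 + 2 * (s * ‖T' (T w)‖ ^ 2) + s ^ 2 * ‖T (T' (T w))‖ ^ 2 := by
    rw [a1, norm_add_sq (𝕜 := ℂ), inner_smul_right, norm_smul, Complex.norm_real,
      Real.norm_eq_abs, abs_of_pos hs, mul_pow]
    have e : RCLike.re ((s : ℂ) * inner ℂ (T w) (T (T' (T w)))) = s * ‖T' (T w)‖ ^ 2 := by
      rw [← h.re2 w]
      exact RCLike.re_ofReal_mul (K := ℂ) s _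
    rw [e]
  have h3 : ‖T' (T δ)‖ ^ 2 = ‖T' (T w)‖ ^ 2 + 2 * (s * ‖T (T' (T w))‖ ^ 2) +
      s ^ 2 * ‖T' (T (T' (T w)))‖ ^ 2 := by
    rw [a2, norm_add_sq (𝕜 := ℂ), inner_smul_right, norm_smul, Complex.norm_real,
      Real.norm_eq_abs, abs_of_pos hs, mul_pow]
    have e : RCLike.re ((s : ℂ) * inner ℂ (T' (T w)) (T' (T (T' (T w))))) =
        s * ‖T (T' (T w))‖ ^ 2 := by
      rw [← h.re (T' (T w))]
      exact RCLike.re_ofReal_mul (K := ℂ) s _
    rw [e]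
  rw [h1, h2, h3]
  have p1 : 0 ≤ s ^ 2 * ‖T (T' (T w))‖ ^ 2 := by positivity
  have p2 : 0 ≤ s ^ 3 * ‖T' (T (T' (T w)))‖ ^ 2 := by positivity
  nlinarith

/-- the map whose fixed point is `(1 + s T* T)⁻¹ ξ` -/
noncomputable def F (T T' : V →L[ℂ] V) (R s : ℝ) (ξ x : V) : V :=
  (((1 + s * R ^ 2)⁻¹ : ℝ) : ℂ) • (ξ + (s : ℂ) • (((R ^ 2 : ℝ) : ℂ) • x - T' (T x)))

theorem Adj.F_contr (h : Adj T T' R) {s : ℝ} (hs : 0 < s) (ξ x y : V) :
    ‖F T T' R s ξ x - F T T' R s ξ y‖ ≤ (1 + s * R ^ 2)⁻¹ * (s * R ^ 2) * ‖x - y‖ := by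
  have hR := h.nn
  have e : F T T' R s ξ x - F T T' R s ξ y =
      (((1 + s * R ^ 2)⁻¹ : ℝ) : ℂ) • (s : ℂ) • (((R ^ 2 : ℝ) : ℂ) • (x - y) - T' (T (x - y))) := by
    unfold F
    rw [map_sub, map_sub]
    module
  rw [e, norm_smul, norm_smul, Complex.norm_real, Complex.norm_real, Real.norm_eq_abs,
    Real.norm_eq_abs, abs_of_pos hs, abs_of_nonneg (by positivity), mul_assoc, mul_assoc]
  have h1 := h.contr (x - y)
  have h2 : 0 ≤ (1 + s * R ^ 2)⁻¹ := by positivity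
  refine mul_le_mul_of_nonneg_left ?_ h2
  exact mul_le_mul_of_nonneg_left h1 hs.le

theorem F_fixed (T T' : V →L[ℂ] V) {R s : ℝ} (hs : 0 < s) {ξ x : V}
    (hx : F T T' R s ξ x = x) : x + (s : ℂ) • T' (T x) = ξ := by
  have h0 : (1 + s * R ^ 2 : ℝ) ≠ 0 := by positivity
  have h1 : ((1 + s * R ^ 2 : ℝ) : ℂ) • x =
      ξ + (s : ℂ) • (((R ^ 2 : ℝ) : ℂ) • x - T' (T x)) := by
    conv_lhs => rw [← hx]
    unfold F
    rw [smul_smul, ← Complex.ofReal_mul, mul_inv_cancel₀ h0, Complex.ofReal_one, one_smul]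
  have h2 : ((1 + s * R ^ 2 : ℝ) : ℂ) • x = x + (s : ℂ) • ((R ^ 2 : ℝ) : ℂ) • x := by
    push_cast
    module
  rw [h2, smul_sub] at h1
  have h3 : x + (s : ℂ) • ((R ^ 2 : ℝ) : ℂ) • x + (s : ℂ) • T' (T x) =
      ξ + (s : ℂ) • ((R ^ 2 : ℝ) : ℂ) • x := by
    rw [h1]
    abel
  have h4 : (x + (s : ℂ) • T' (T x)) + (s : ℂ) • ((R ^ 2 : ℝ) : ℂ) • x =
      ξ + (s : ℂ) • ((R ^ 2 : ℝ) : ℂ) • x := by
    rw [← h3]
    abel
  exact add_right_cancel h4

end op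

/-! ### unitary representations -/

/-- a unitary representation -/
structure URep (G V : Type) [Group G] [NormedAddCommGroup V] [InnerProductSpace ℂ V] where
  ρ : G → V →L[ℂ] V
  one : ∀ x, ρ 1 x = x
  mul : ∀ g h x, ρ (g * h) x = ρ g (ρ h x)
  adj : ∀ g x y, inner ℂ (ρ g x) y = inner ℂ x (ρ g⁻¹ y)

namespace URep

variable {G V : Type} [Group G] [NormedAddCommGroup V] [InnerProductSpace ℂ V] (r : URep G V)

theorem norm_ρ (g : G) (x : V) : ‖r.ρ g x‖ = ‖x‖ := by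
  have h2 : ‖r.ρ g x‖ ^ 2 = ‖x‖ ^ 2 := by
    rw [← inner_self_eq_norm_sq (𝕜 := ℂ), ← inner_self_eq_norm_sq (𝕜 := ℂ), r.adj, ← r.mul,
      inv_mul_cancel, r.one]
  exact (pow_left_inj₀ (norm_nonneg _) (norm_nonneg _) two_ne_zero).1 h2

/-- the operator of a finitely supported function -/
noncomputable def T (f : G → ℝ) (E : Finset G) : V →L[ℂ] V := ∑ g ∈ E, ((f g : ℝ) : ℂ) • r.ρ g

/-- its adjoint -/
noncomputable def T' (f : G → ℝ) (E : Finset G) : V →L[ℂ] V :=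
  ∑ g ∈ E, ((f g : ℝ) : ℂ) • r.ρ g⁻¹

theorem T_apply (f : G → ℝ) (E : Finset G) (x : V) :
    r.T f E x = ∑ g ∈ E, ((f g : ℝ) : ℂ) • r.ρ g x := by
  simp [T]

theorem T'_apply (f : G → ℝ) (E : Finset G) (x : V) :
    r.T' f E x = ∑ g ∈ E, ((f g : ℝ) : ℂ) • r.ρ g⁻¹ x := by
  simp [T']

theorem isAdj (f : G → ℝ) (E : Finset G) : Adj (r.T f E) (r.T' f E) (∑ g ∈ E, |f g|) where
  adj := by
    intro x y
    rw [T_apply, T'_apply, sum_inner, inner_sum]
    refine Finset.sum_congr rfl fun g _ => ?_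
    rw [inner_smul_left, inner_smul_right, Complex.conj_ofReal, r.adj, inv_inv]
  bd := by
    intro x
    rw [T_apply, Finset.sum_mul]
    refine (norm_sum_le _ _).trans (Finset.sum_le_sum fun g _ => ?_)
    rw [norm_smul, Complex.norm_real, Real.norm_eq_abs, r.norm_ρ]
  bd' := by
    intro x
    rw [T'_apply, Finset.sum_mul]
    refine (norm_sum_le _ _).trans (Finset.sum_le_sum fun g _ => ?_)
    rw [norm_smul, Complex.norm_real, Real.norm_eq_abs, r.norm_ρ]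
  nn := Finset.sum_nonneg fun g _ => abs_nonneg _

end URep

/-! ### the main argument -/

section main

variable {G H K : Type} [Group G] [DecidableEq G]
  [NormedAddCommGroup H] [InnerProductSpace ℂ H] [CompleteSpace H]
  [NormedAddCommGroup K] [InnerProductSpace ℂ K] [CompleteSpace K]

/-- the two representations have the same coefficients along the pair -/
def Lk (r : URep G H) (q : URep G K) (η : H) (ζ : K) : Set (H × K) :=
  {p | ∀ g, inner ℂ η (r.ρ g p.1) = inner ℂ ζ (q.ρ g p.2)}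

omit [DecidableEq G] [CompleteSpace H] [CompleteSpace K] in
theorem Lk_closed (r : URep G H) (q : URep G K) (η : H) (ζ : K) : IsClosed (Lk r q η ζ) := by
  unfold Lk
  rw [Set.ofPred_forall]
  refine isClosed_iInter fun g => isClosed_eq ?_ ?_
  · exact continuous_const.inner ((r.ρ g).continuous.comp continuous_fst)
  · exact continuous_const.inner ((q.ρ g).continuous.comp continuous_snd)

omit [DecidableEq G] [CompleteSpace H] [CompleteSpace K] in
theorem Lk_T {r : URep G H} {q : URep G K} {η : H} {ζ : K} (f : G → ℝ) (E : Finset G)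
    {p : H × K} (hp : p ∈ Lk r q η ζ) : (r.T f E p.1, q.T f E p.2) ∈ Lk r q η ζ := by
  intro g
  simp only [URep.T_apply, map_sum, map_smul, inner_sum, inner_smul_right]
  refine Finset.sum_congr rfl fun h _ => ?_
  rw [← r.mul, ← q.mul, hp (g * h)]

omit [DecidableEq G] [CompleteSpace H] [CompleteSpace K] in
theorem Lk_T' {r : URep G H} {q : URep G K} {η : H} {ζ : K} (f : G → ℝ) (E : Finset G)
    {p : H × K} (hp : p ∈ Lk r q η ζ) : (r.T' f E p.1, q.T' f E p.2) ∈ Lk r q η ζ := by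
  intro g
  simp only [URep.T'_apply, map_sum, map_smul, inner_sum, inner_smul_right]
  refine Finset.sum_congr rfl fun h _ => ?_
  rw [← r.mul, ← q.mul, hp (g * h⁻¹)]

omit [DecidableEq G] [CompleteSpace H] [CompleteSpace K] in
theorem Lk_add {r : URep G H} {q : URep G K} {η : H} {ζ : K} {p p' : H × K}
    (hp : p ∈ Lk r q η ζ) (hp' : p' ∈ Lk r q η ζ) : p + p' ∈ Lk r q η ζ := by
  intro g
  rw [Prod.fst_add, Prod.snd_add, map_add, map_add, inner_add_right, inner_add_right, hp g, hp' g]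

omit [DecidableEq G] [CompleteSpace H] [CompleteSpace K] in
theorem Lk_sub {r : URep G H} {q : URep G K} {η : H} {ζ : K} {p p' : H × K}
    (hp : p ∈ Lk r q η ζ) (hp' : p' ∈ Lk r q η ζ) : p - p' ∈ Lk r q η ζ := by
  intro g
  rw [Prod.fst_sub, Prod.snd_sub, map_sub, map_sub, inner_sub_right, inner_sub_right, hp g, hp' g]

omit [DecidableEq G] [CompleteSpace H] [CompleteSpace K] in
theorem Lk_smul {r : URep G H} {q : URep G K} {η : H} {ζ : K} {p : H × K} (c : ℂ)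
    (hp : p ∈ Lk r q η ζ) : c • p ∈ Lk r q η ζ := by
  intro g
  rw [Prod.smul_fst, Prod.smul_snd, map_smul, map_smul, inner_smul_right, inner_smul_right, hp g]

omit [DecidableEq G] in
/-- simultaneous solution of the two equations -/
theorem solve {r : URep G H} {q : URep G K} {η : H} {ζ : K} (f : G → ℝ) (E : Finset G)
    {ξ : H} {δ : K} (h0 : (ξ, δ) ∈ Lk r q η ζ) {s : ℝ} (hs : 0 < s) :
    ∃ p ∈ Lk r q η ζ, p.1 + (s : ℂ) • r.T' f E (r.T f E p.1) = ξ ∧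
      p.2 + (s : ℂ) • q.T' f E (q.T f E p.2) = δ := by
  obtain ⟨R, hRdef⟩ : ∃ R : ℝ, R = ∑ g ∈ E, |f g| := ⟨_, rfl⟩
  have ha := r.isAdj f E
  have hb := q.isAdj f E
  rw [← hRdef] at ha hb
  have hR := ha.nn
  let Φ : H × K → H × K := fun p =>
    (F (r.T f E) (r.T' f E) R s ξ p.1, F (q.T f E) (q.T' f E) R s δ p.2)
  have hmaps : Set.MapsTo Φ (Lk r q η ζ) (Lk r q η ζ) := by
    intro p hp
    have h1 := Lk_smul (((1 + s * R ^ 2)⁻¹ : ℝ) : ℂ) (Lk_add h0 (Lk_smul (s : ℂ)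
      (Lk_sub (Lk_smul ((R ^ 2 : ℝ) : ℂ) hp) (Lk_T' f E (Lk_T f E hp)))))
    exact h1
  have hκ0 : 0 ≤ (1 + s * R ^ 2)⁻¹ * (s * R ^ 2) := by positivity
  have hκ1 : (1 + s * R ^ 2)⁻¹ * (s * R ^ 2) < 1 := by
    rw [inv_mul_lt_iff₀ (by positivity)]
    linarith
  have hcontr : ContractingWith ⟨(1 + s * R ^ 2)⁻¹ * (s * R ^ 2), hκ0⟩
      (Set.MapsTo.restrict Φ (Lk r q η ζ) (Lk r q η ζ) hmaps) := by
    refine ⟨by exact_mod_cast hκ1, LipschitzWith.of_dist_le_mul ?_⟩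
    rintro ⟨x, hx⟩ ⟨y, hy⟩
    rw [Subtype.dist_eq, Subtype.dist_eq]
    show dist (Φ x) (Φ y) ≤ (1 + s * R ^ 2)⁻¹ * (s * R ^ 2) * dist x y
    rw [Prod.dist_eq]
    refine max_le ?_ ?_
    · rw [dist_eq_norm]
      refine (ha.F_contr hs ξ x.1 y.1).trans ?_
      refine mul_le_mul_of_nonneg_left ?_ hκ0
      rw [← dist_eq_norm, Prod.dist_eq]
      exact le_max_left _ _
    · rw [dist_eq_norm]
      refine (hb.F_contr hs δ x.2 y.2).trans ?_
      refine mul_le_mul_of_nonneg_left ?_ hκ0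
      rw [← dist_eq_norm, Prod.dist_eq]
      exact le_max_right _ _
  obtain ⟨p, hp, hfix, -⟩ := ContractingWith.exists_fixedPoint'
    (Lk_closed r q η ζ).isComplete hmaps hcontr h0 (edist_ne_top _ _)
  refine ⟨p, hp, ?_, ?_⟩
  · exact F_fixed _ _ hs (congrArg Prod.fst hfix)
  · exact F_fixed _ _ hs (congrArg Prod.snd hfix)

/-- the inequality for a representation with a trace vector -/
theorem key (r : URep G H) (q : URep G K) (ξ η : H) (δ : K)
    (hδ : ∀ g, inner ℂ δ (q.ρ g δ) = if g = 1 then 1 else 0)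
    (f : G → ℝ) (E : Finset G) (hE : ∀ g, g ∉ E → f g = 0)
    (hf : ∀ g, ((f g : ℝ) : ℂ) = inner ℂ η (r.ρ g ξ)) (s : ℝ) (hs : 0 < s) :
    ∑ g ∈ E, f g ^ 2 - s * ∑ k ∈ E, ∑ l ∈ E, ∑ k' ∈ E, ∑ l' ∈ E,
      (if k⁻¹ * l = k'⁻¹ * l' then f k * f l * f k' * f l' else 0) ≤
      ‖ξ‖ * ‖η‖ / (2 * Real.sqrt s) := by
  have hδ2 : ∀ g h, inner ℂ (q.ρ g δ) (q.ρ h δ) = if g = h then (1 : ℂ) else 0 := by
    intro g h
    rw [q.adj, ← q.mul, hδ]
    by_cases hgh : g = h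
    · rw [if_pos hgh, if_pos (by rw [hgh, inv_mul_cancel])]
    · rw [if_neg hgh, if_neg (fun e => hgh (inv_mul_eq_one.1 e))]
  have hTδ : ∀ g, inner ℂ (q.T f E δ) (q.ρ g δ) = ((f g : ℝ) : ℂ) := by
    intro g
    rw [URep.T_apply, sum_inner]
    simp only [inner_smul_left, Complex.conj_ofReal, hδ2, mul_ite, mul_one, mul_zero]
    rw [Finset.sum_ite_eq' E g (fun h => ((f h : ℝ) : ℂ))]
    split_ifs with hg
    · rfl
    · rw [hE g hg, Complex.ofReal_zero]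
  have h0 : (ξ, δ) ∈ Lk r q η (q.T f E δ) := by
    intro g
    rw [hTδ, hf]
  obtain ⟨p, hp, h1, h2⟩ := solve f E h0 hs
  have ha := r.isAdj f E
  have hb := q.isAdj f E
  have h3 := ha.upper hs h1
  have h4 := hb.lower hs h2
  have h5 : inner ℂ η (r.T f E p.1) = inner ℂ (q.T f E δ) (q.T f E p.2) := by
    have := Lk_T f E hp 1
    simpa only [r.one, q.one] using this
  have h6 : RCLike.re (inner ℂ (q.T f E δ) (q.T f E p.2)) ≤ ‖ξ‖ * ‖η‖ / (2 * Real.sqrt s) := by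
    rw [← h5]
    refine (re_inner_le_norm _ _).trans ?_
    calc ‖η‖ * ‖r.T f E p.1‖ ≤ ‖η‖ * (‖ξ‖ / (2 * Real.sqrt s)) :=
          mul_le_mul_of_nonneg_left h3 (norm_nonneg _)
      _ = ‖ξ‖ * ‖η‖ / (2 * Real.sqrt s) := by ring
  have e1 : ‖q.T f E δ‖ ^ 2 = ∑ g ∈ E, f g ^ 2 := by
    have a1 : inner ℂ (q.T f E δ) (q.T f E δ) = ((∑ g ∈ E, f g ^ 2 : ℝ) : ℂ) := by
      conv_lhs =>
        rhs
        rw [URep.T_apply]
      rw [inner_sum]
      push_cast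
      refine Finset.sum_congr rfl fun g _ => ?_
      rw [inner_smul_right, hTδ, pow_two]
    rw [← inner_self_eq_norm_sq (𝕜 := ℂ), a1]
    exact RCLike.ofReal_re _
  have e2 : ‖q.T' f E (q.T f E δ)‖ ^ 2 = ∑ k ∈ E, ∑ l ∈ E, ∑ k' ∈ E, ∑ l' ∈ E,
      (if k⁻¹ * l = k'⁻¹ * l' then f k * f l * f k' * f l' else 0) := by
    have a0 : q.T' f E (q.T f E δ) =
        ∑ k ∈ E, ∑ l ∈ E, ((f k * f l : ℝ) : ℂ) • q.ρ (k⁻¹ * l) δ := by
      rw [URep.T'_apply]
      refine Finset.sum_congr rfl fun k _ => ?_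
      rw [URep.T_apply, map_sum, Finset.smul_sum]
      refine Finset.sum_congr rfl fun l _ => ?_
      rw [map_smul, smul_smul, q.mul, Complex.ofReal_mul]
    have a1 : inner ℂ (q.T' f E (q.T f E δ)) (q.T' f E (q.T f E δ)) =
        ((∑ k ∈ E, ∑ l ∈ E, ∑ k' ∈ E, ∑ l' ∈ E,
          (if k⁻¹ * l = k'⁻¹ * l' then f k * f l * f k' * f l' else 0) : ℝ) : ℂ) := by
      rw [a0, sum_inner]
      push_cast
      refine Finset.sum_congr rfl fun k _ => ?_
      rw [sum_inner]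
      refine Finset.sum_congr rfl fun l _ => ?_
      rw [inner_sum]
      refine Finset.sum_congr rfl fun k' _ => ?_
      rw [inner_sum]
      refine Finset.sum_congr rfl fun l' _ => ?_
      rw [inner_smul_left, inner_smul_right, hδ2]
      split_ifs
      · simp only [map_mul, Complex.conj_ofReal]
        push_cast
        ring
      · simp
    rw [← inner_self_eq_norm_sq (𝕜 := ℂ), a1]
    exact RCLike.ofReal_re _
  rw [e1, e2] at h4
  exact h4.trans h6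

end main

/-! ### the regular representation -/

/-- `ℓ²(G)` -/
abbrev Ell (G : Type) : Type := lp (fun _ : G => ℂ) 2

/-- The operator `f ↦ f ∘ e` on `ℓ²(G)` given by a bijection `e` of `G`. -/
noncomputable def permOp {G : Type} (e : G ≃ G) : Ell G →L[ℂ] Ell G :=
  LinearIsometry.toContinuousLinearMap
    { toFun := fun f => ⟨fun h => f (e h), by
        have h1 := (lp.memℓp f).summable (by norm_num)
        refine memℓp_gen ?_
        exact (e.summable_iff (f := fun h => ‖f h‖ ^ (2 : ENNReal).toReal)).2 h1⟩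
      map_add' := fun f g => by ext h; rfl
      map_smul' := fun c f => by ext h; rfl
      norm_map' := fun f => by
        have h1 : (0 : ℝ) < (2 : ENNReal).toReal := by norm_num
        rw [lp.norm_eq_tsum_rpow h1, lp.norm_eq_tsum_rpow h1]
        congr 1
        exact e.tsum_eq (fun h => ‖f h‖ ^ (2 : ENNReal).toReal) }

theorem permOp_apply {G : Type} (e : G ≃ G) (f : Ell G) (h : G) : permOp e f h = f (e h) := rfl

/-- the regular representation -/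
noncomputable def reg (G : Type) [Group G] : URep G (Ell G) where
  ρ g := permOp (Equiv.mulLeft g⁻¹)
  one x := by
    ext h
    rw [permOp_apply]
    simp
  mul g h x := by
    ext k
    rw [permOp_apply, permOp_apply, permOp_apply]
    simp [mul_assoc]
  adj g x y := by
    rw [lp.inner_eq_tsum, lp.inner_eq_tsum, ← (Equiv.mulLeft g).tsum_eq]
    refine tsum_congr fun h => ?_
    rw [permOp_apply, permOp_apply]
    simp

theorem lower {G H : Type} [Group G] [DecidableEq G] [NormedAddCommGroup H]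
    [InnerProductSpace ℂ H] [CompleteSpace H] (σ : G →* (H →L[ℂ] H)ˣ)
    (hσ : ∀ g, ((σ g : (H →L[ℂ] H)ˣ) : H →L[ℂ] H) ∈ unitary (H →L[ℂ] H))
    (ξ η : H) (f : G → ℝ) (E : Finset G) (hE : ∀ g, g ∉ E → f g = 0)
    (hf : ∀ g, ((f g : ℝ) : ℂ) = inner ℂ η (((σ g : (H →L[ℂ] H)ˣ) : H →L[ℂ] H) ξ))
    (s : ℝ) (hs : 0 < s) :
    ∑ g ∈ E, f g ^ 2 - s * ∑ k ∈ E, ∑ l ∈ E, ∑ k' ∈ E, ∑ l' ∈ E,
      (if k⁻¹ * l = k'⁻¹ * l' then f k * f l * f k' * f l' else 0) ≤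
      ‖ξ‖ * ‖η‖ / (2 * Real.sqrt s) := by
  let r : URep G H :=
    { ρ := fun g => ((σ g : (H →L[ℂ] H)ˣ) : H →L[ℂ] H)
      one := fun x => by simp
      mul := fun g h x => by
        rw [map_mul, Units.val_mul]
        rfl
      adj := fun g x y => by
        have h1 : star ((σ g : (H →L[ℂ] H)ˣ) : H →L[ℂ] H) =
            ((σ g⁻¹ : (H →L[ℂ] H)ˣ) : H →L[ℂ] H) := by
          rw [map_inv]
          refine (Units.inv_eq_of_mul_eq_one_left ?_).symm
          exact (Unitary.mem_iff.1 (hσ g)).1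
        rw [← h1, ContinuousLinearMap.star_eq_adjoint, ContinuousLinearMap.adjoint_inner_right] }
  refine key r (reg G) ξ η (lp.single 2 (1 : G) (1 : ℂ)) ?_ f E hE hf s hs
  intro g
  rw [lp.inner_eq_tsum]
  rw [tsum_eq_single (1 : G)]
  · show inner ℂ ((lp.single 2 (1 : G) (1 : ℂ) : Ell G) 1)
      (permOp (Equiv.mulLeft g⁻¹) (lp.single 2 (1 : G) (1 : ℂ) : Ell G) 1) = _
    rw [permOp_apply, lp.single_apply, lp.single_apply]
    by_cases hg : g = 1
    · subst hg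
      simp
    · rw [if_neg hg]
      simp [Pi.single_apply, hg]
  · intro h hh
    show inner ℂ ((lp.single 2 (1 : G) (1 : ℂ) : Ell G) h) _ = 0
    rw [lp.single_apply, Pi.single_eq_of_ne hh, inner_zero_left]

end Pool.Agent.TH48.J4951
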